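import Pool.Agent.Helper64.NC.Rd.Big

/-! NC: maps consisting of one wheel (generated checks). -/

set_option maxRecDepth 1000000

namespace Pool.H64.NC.Dat

open Code

/-- explicit Hamilton circuits of the small maps -/
def smT (q : List ℕ) : List (ℕ × List ℕ) :=
  if q = [4, 4, 4, 4] then [(0, [21474967554, 281492156645380, 562949953748994, 562958543355909])] else
  if q = [4, 5, 4, 5] then [(1, [1125904202334213, 2251821288783873, 72057615529672706, 72339086211350532])] else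
  if q = [4, 6, 4, 6] then [(291, [2251821289046021, 2814749768482818, 5910983101513728, 76561215173951489])] else
  if q = [4, 4, 4, 4, 4] then [(0, [1407383473618946, 36893488168894070786, 36894051097372852226, 36894051105962459141])] else
  if q = [4, 4, 5, 4, 5] then [(1, [73787257804174983170, 73787257812764590085, 92234283335681114116, 184467440775750483969])] else
  if q = [4, 4, 6, 4, 6] then [(291, [147575359998920032258, 147575360007509639173, 184467440827289960450, 387382188540803809280])] else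
  if q = [4, 5, 5, 4, 6] then [(291, [147575359981740163074, 184467440775750746117, 5017515796531983417345, 5035962259126421684224])] else
  []

def reps4 : List (List ℕ) := [[4, 4, 4, 4], [4, 4, 4, 5], [4, 4, 4, 6], [4, 4, 5, 5], [4, 4, 5, 6], [4, 4, 6, 5], [4, 4, 6, 6], [4, 5, 4, 5], [4, 5, 4, 6], [4, 5, 5, 5], [4, 5, 5, 6], [4, 5, 6, 5], [4, 5, 6, 6], [4, 6, 4, 6], [4, 6, 5, 5], [4, 6, 5, 6], [4, 6, 6, 5], [4, 6, 6, 6], [5, 5, 5, 5], [5, 5, 5, 6], [5, 5, 6, 6], [5, 6, 5, 6], [5, 6, 6, 6], [6, 6, 6, 6]]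

def reps5 : List (List ℕ) := [[4, 4, 4, 4, 4], [4, 4, 4, 4, 5], [4, 4, 4, 4, 6], [4, 4, 4, 5,
  5], [4, 4, 4, 5, 6], [4, 4, 4, 6, 5], [4, 4, 4, 6, 6], [4, 4, 5, 4, 5], [4, 4, 5, 4, 6], [4,
  4, 5, 5, 5], [4, 4, 5, 5, 6], [4, 4, 5, 6, 5], [4, 4, 5, 6, 6], [4, 4, 6, 4, 5], [4, 4, 6, 4,
  6], [4, 4, 6, 5, 5], [4, 4, 6, 5, 6], [4, 4, 6, 6, 5], [4, 4, 6, 6, 6], [4, 5, 4, 5, 5], [4,
  5, 4, 5, 6], [4, 5, 4, 6, 5], [4, 5, 4, 6, 6], [4, 5, 5, 4, 6], [4, 5, 5, 5, 5], [4, 5, 5, 5,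
  6], [4, 5, 5, 6, 5], [4, 5, 5, 6, 6], [4, 5, 6, 4, 6], [4, 5, 6, 5, 5], [4, 5, 6, 5, 6], [4,
  5, 6, 6, 5], [4, 5, 6, 6, 6], [4, 6, 4, 6, 5], [4, 6, 4, 6, 6], [4, 6, 5, 5, 5], [4, 6, 5, 5,
  6], [4, 6, 5, 6, 5], [4, 6, 5, 6, 6], [4, 6, 6, 5, 5], [4, 6, 6, 5, 6], [4, 6, 6, 6, 5], [4,
  6, 6, 6, 6], [5, 5, 5, 5, 5], [5, 5, 5, 5, 6], [5, 5, 5, 6, 6], [5, 5, 6, 5, 6], [5, 5, 6, 6,
  6], [5, 6, 5, 6, 6], [5, 6, 6, 6, 6], [6, 6, 6, 6, 6]]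

def reps6 : List (List ℕ) := [[4, 4, 4, 4, 4, 4], [4, 4, 4, 4, 4, 5], [4, 4, 4, 4, 4, 6], [4,
  4, 4, 4, 5, 5], [4, 4, 4, 4, 5, 6], [4, 4, 4, 4, 6, 5], [4, 4, 4, 4, 6, 6], [4, 4, 4, 5, 4,
  5], [4, 4, 4, 5, 4, 6], [4, 4, 4, 5, 5, 5], [4, 4, 4, 5, 5, 6], [4, 4, 4, 5, 6, 5], [4, 4, 4,
  5, 6, 6], [4, 4, 4, 6, 4, 5], [4, 4, 4, 6, 4, 6], [4, 4, 4, 6, 5, 5], [4, 4, 4, 6, 5, 6], [4,
  4, 4, 6, 6, 5], [4, 4, 4, 6, 6, 6], [4, 4, 5, 4, 4, 5], [4, 4, 5, 4, 4, 6], [4, 4, 5, 4, 5,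
  5], [4, 4, 5, 4, 5, 6], [4, 4, 5, 4, 6, 5], [4, 4, 5, 4, 6, 6], [4, 4, 5, 5, 4, 5], [4, 4, 5,
  5, 4, 6], [4, 4, 5, 5, 5, 5], [4, 4, 5, 5, 5, 6], [4, 4, 5, 5, 6, 5], [4, 4, 5, 5, 6, 6], [4,
  4, 5, 6, 4, 5], [4, 4, 5, 6, 4, 6], [4, 4, 5, 6, 5, 5], [4, 4, 5, 6, 5, 6], [4, 4, 5, 6, 6,
  5], [4, 4, 5, 6, 6, 6], [4, 4, 6, 4, 4, 6], [4, 4, 6, 4, 5, 5], [4, 4, 6, 4, 5, 6], [4, 4, 6,
  4, 6, 5], [4, 4, 6, 4, 6, 6], [4, 4, 6, 5, 4, 5], [4, 4, 6, 5, 4, 6], [4, 4, 6, 5, 5, 5], [4,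
  4, 6, 5, 5, 6], [4, 4, 6, 5, 6, 5], [4, 4, 6, 5, 6, 6], [4, 4, 6, 6, 4, 5], [4, 4, 6, 6, 4,
  6], [4, 4, 6, 6, 5, 5], [4, 4, 6, 6, 5, 6], [4, 4, 6, 6, 6, 5], [4, 4, 6, 6, 6, 6], [4, 5, 4,
  5, 4, 5], [4, 5, 4, 5, 4, 6], [4, 5, 4, 5, 5, 5], [4, 5, 4, 5, 5, 6], [4, 5, 4, 5, 6, 5], [4,
  5, 4, 5, 6, 6], [4, 5, 4, 6, 4, 6], [4, 5, 4, 6, 5, 5], [4, 5, 4, 6, 5, 6], [4, 5, 4, 6, 6,
  5], [4, 5, 4, 6, 6, 6], [4, 5, 5, 4, 5, 5], [4, 5, 5, 4, 5, 6], [4, 5, 5, 4, 6, 5], [4, 5, 5,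
  4, 6, 6], [4, 5, 5, 5, 4, 6], [4, 5, 5, 5, 5, 5], [4, 5, 5, 5, 5, 6], [4, 5, 5, 5, 6, 5], [4,
  5, 5, 5, 6, 6], [4, 5, 5, 6, 4, 6], [4, 5, 5, 6, 5, 5], [4, 5, 5, 6, 5, 6], [4, 5, 5, 6, 6,
  5], [4, 5, 5, 6, 6, 6], [4, 5, 6, 4, 5, 6], [4, 5, 6, 4, 6, 5], [4, 5, 6, 4, 6, 6], [4, 5, 6,
  5, 4, 6], [4, 5, 6, 5, 5, 5], [4, 5, 6, 5, 5, 6], [4, 5, 6, 5, 6, 5], [4, 5, 6, 5, 6, 6], [4,
  5, 6, 6, 4, 6], [4, 5, 6, 6, 5, 5], [4, 5, 6, 6, 5, 6], [4, 5, 6, 6, 6, 5], [4, 5, 6, 6, 6,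
  6], [4, 6, 4, 6, 4, 6], [4, 6, 4, 6, 5, 5], [4, 6, 4, 6, 5, 6], [4, 6, 4, 6, 6, 5], [4, 6, 4,
  6, 6, 6], [4, 6, 5, 4, 6, 5], [4, 6, 5, 4, 6, 6], [4, 6, 5, 5, 5, 5], [4, 6, 5, 5, 5, 6], [4,
  6, 5, 5, 6, 5], [4, 6, 5, 5, 6, 6], [4, 6, 5, 6, 5, 5], [4, 6, 5, 6, 5, 6], [4, 6, 5, 6, 6,
  5], [4, 6, 5, 6, 6, 6], [4, 6, 6, 4, 6, 6], [4, 6, 6, 5, 5, 5], [4, 6, 6, 5, 5, 6], [4, 6, 6,
  5, 6, 5], [4, 6, 6, 5, 6, 6], [4, 6, 6, 6, 5, 5], [4, 6, 6, 6, 5, 6], [4, 6, 6, 6, 6, 5], [4,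
  6, 6, 6, 6, 6], [5, 5, 5, 5, 5, 5], [5, 5, 5, 5, 5, 6], [5, 5, 5, 5, 6, 6], [5, 5, 5, 6, 5,
  6], [5, 5, 5, 6, 6, 6], [5, 5, 6, 5, 5, 6], [5, 5, 6, 5, 6, 6], [5, 5, 6, 6, 5, 6], [5, 5, 6,
  6, 6, 6], [5, 6, 5, 6, 5, 6], [5, 6, 5, 6, 6, 6], [5, 6, 6, 5, 6, 6]]

theorem small4 : reps4.all (fun q => smallOK q (smT q)) = true := by decide +kernel

theorem small5 : reps5.all (fun q => smallOK q (smT q)) = true := by decide +kernel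

theorem big6 : reps6.all (fun q => bigOK q) = true := by decide +kernel

end Pool.H64.NC.Dat
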