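import Pool.Agent.Helper64.NC.Rd.Lists
import Pool.Agent.Helper64.NC.Dt.Small

/-! NC: representatives of the neighbour lists up to rotation. -/

set_option maxRecDepth 1000000

namespace Pool.H64.NC.Dat

open Code

def lcode (l : List ℕ) : ℕ := l.foldl (fun a x => 8 * a + x) 0

/-- number of steps to the smallest rotation -/
def bestr (l : List ℕ) : ℕ :=
  ((List.range l.length).foldl (fun (b : ℕ × ℕ) r =>
    let c := lcode (l.rotate r)
    bif Nat.blt c b.1 then (c, r) else b) (8 ^ (l.length + 1), 0)).2

theorem rot4 : (lists 4).all (fun l => reps4.contains (l.rotate (bestr l))) = true := by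
  decide +kernel

theorem rot5 : (lists 5).all (fun l => reps5.contains (l.rotate (bestr l))) = true := by
  decide +kernel

theorem rot6 : (lists 6).all (fun l => reps6.contains (l.rotate (bestr l)) ||
    (l.all (fun x => Nat.ble 5 x) && (List.range 6).all (fun i => (List.range 6).all (fun j =>
      Nat.beq i j || (Nat.beq (l.getD i 0) 6 || Nat.beq (l.getD j 0) 6))))) = true := by
  decide +kernel

end Pool.H64.NC.Dat
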