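import Pool.Agent.Helper64.NC.Dt.P4a
import Pool.Agent.Helper64.NC.Dt.P5a
import Pool.Agent.Helper64.NC.Dt.P5b
import Pool.Agent.Helper64.NC.Dt.P5c
import Pool.Agent.Helper64.NC.Dt.P6a
import Pool.Agent.Helper64.NC.Dt.P6b
import Pool.Agent.Helper64.NC.Dt.P6c
import Pool.Agent.Helper64.NC.Dt.P6d
import Pool.Agent.Helper64.NC.Dt.P6e
import Pool.Agent.Helper64.NC.Dt.P6f
import Pool.Agent.Helper64.NC.Dt.P6g
import Pool.Agent.Helper64.NC.Dt.P6h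
import Pool.Agent.Helper64.NC.Dt.P6i
import Pool.Agent.Helper64.NC.Dt.P6j
import Pool.Agent.Helper64.NC.Dt.P6k
import Pool.Agent.Helper64.NC.Dt.P6l
import Pool.Agent.Helper64.NC.Dt.P6m
import Pool.Agent.Helper64.NC.Dt.P6n
import Pool.Agent.Helper64.NC.Dt.Rot
import Pool.Agent.Helper64.NC.Rd.Loc

/-! NC: all certificates (generated). -/

set_option maxRecDepth 1000000

namespace Pool.H64.NC.Dat

open Code

def lP4a : List (List ℕ) := [[4, 4, 4, 5], [4, 4, 4, 6], [4, 4, 5, 5], [4, 5, 4, 5], [4, 4, 5,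
  6], [4, 4, 6, 5], [4, 5, 4, 6], [4, 5, 5, 5], [4, 4, 6, 6], [4, 5, 5, 6], [4, 5, 6, 5], [4, 6,
  4, 6], [4, 6, 5, 5], [5, 5, 5, 5], [4, 5, 6, 6], [4, 6, 5, 6], [4, 6, 6, 5], [5, 5, 5, 6], [4,
  6, 6, 6], [5, 5, 6, 6], [5, 6, 5, 6], [5, 6, 6, 6], [6, 6, 6, 6]]

theorem allP4a : ∀ q ∈ lP4a, ∃ c G, Cert2 q c G := by
  unfold lP4a
  refine List.forall_mem_cons.2 ⟨⟨_, _, cert4445⟩, ?_⟩
  refine List.forall_mem_cons.2 ⟨⟨_, _, cert4446⟩, ?_⟩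
  refine List.forall_mem_cons.2 ⟨⟨_, _, cert4455⟩, ?_⟩
  refine List.forall_mem_cons.2 ⟨⟨_, _, cert4545⟩, ?_⟩
  refine List.forall_mem_cons.2 ⟨⟨_, _, cert4456⟩, ?_⟩
  refine List.forall_mem_cons.2 ⟨⟨_, _, cert4465⟩, ?_⟩
  refine List.forall_mem_cons.2 ⟨⟨_, _, cert4546⟩, ?_⟩
  refine List.forall_mem_cons.2 ⟨⟨_, _, cert4555⟩, ?_⟩
  refine List.forall_mem_cons.2 ⟨⟨_, _, cert4466⟩, ?_⟩
  refine List.forall_mem_cons.2 ⟨⟨_, _, cert4556⟩, ?_⟩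
  refine List.forall_mem_cons.2 ⟨⟨_, _, cert4565⟩, ?_⟩
  refine List.forall_mem_cons.2 ⟨⟨_, _, cert4646⟩, ?_⟩
  refine List.forall_mem_cons.2 ⟨⟨_, _, cert4655⟩, ?_⟩
  refine List.forall_mem_cons.2 ⟨⟨_, _, cert5555⟩, ?_⟩
  refine List.forall_mem_cons.2 ⟨⟨_, _, cert4566⟩, ?_⟩
  refine List.forall_mem_cons.2 ⟨⟨_, _, cert4656⟩, ?_⟩
  refine List.forall_mem_cons.2 ⟨⟨_, _, cert4665⟩, ?_⟩
  refine List.forall_mem_cons.2 ⟨⟨_, _, cert5556⟩, ?_⟩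
  refine List.forall_mem_cons.2 ⟨⟨_, _, cert4666⟩, ?_⟩
  refine List.forall_mem_cons.2 ⟨⟨_, _, cert5566⟩, ?_⟩
  refine List.forall_mem_cons.2 ⟨⟨_, _, cert5656⟩, ?_⟩
  refine List.forall_mem_cons.2 ⟨⟨_, _, cert5666⟩, ?_⟩
  refine List.forall_mem_cons.2 ⟨⟨_, _, cert6666⟩, ?_⟩
  exact fun _ h => absurd h List.not_mem_nil

def lP5a : List (List ℕ) := [[4, 4, 4, 4, 5], [4, 4, 4, 4, 6], [4, 4, 4, 5, 5], [4, 4, 5, 4,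
  5], [4, 4, 4, 5, 6], [4, 4, 4, 6, 5], [4, 4, 5, 4, 6], [4, 4, 5, 5, 5], [4, 4, 6, 4, 5], [4,
  5, 4, 5, 5], [4, 4, 4, 6, 6], [4, 4, 5, 5, 6], [4, 4, 5, 6, 5], [4, 4, 6, 4, 6], [4, 4, 6, 5,
  5], [4, 5, 4, 5, 6], [4, 5, 4, 6, 5], [4, 5, 5, 4, 6], [4, 5, 5, 5, 5], [4, 4, 5, 6, 6], [4,
  4, 6, 5, 6], [4, 4, 6, 6, 5], [4, 5, 4, 6, 6], [4, 5, 5, 5, 6], [4, 5, 5, 6, 5], [4, 5, 6, 4,
  6], [4, 5, 6, 5, 5], [4, 6, 4, 6, 5], [4, 6, 5, 5, 5], [5, 5, 5, 5, 5], [4, 4, 6, 6, 6], [4,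
  5, 5, 6, 6], [4, 5, 6, 5, 6], [4, 5, 6, 6, 5], [4, 6, 4, 6, 6], [4, 6, 5, 5, 6], [4, 6, 5, 6,
  5], [4, 6, 6, 5, 5], [5, 5, 5, 5, 6], [4, 5, 6, 6, 6], [4, 6, 5, 6, 6], [4, 6, 6, 5, 6]]

theorem allP5a : ∀ q ∈ lP5a, ∃ c G, Cert2 q c G := by
  unfold lP5a
  refine List.forall_mem_cons.2 ⟨⟨_, _, cert44445⟩, ?_⟩
  refine List.forall_mem_cons.2 ⟨⟨_, _, cert44446⟩, ?_⟩
  refine List.forall_mem_cons.2 ⟨⟨_, _, cert44455⟩, ?_⟩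
  refine List.forall_mem_cons.2 ⟨⟨_, _, cert44545⟩, ?_⟩
  refine List.forall_mem_cons.2 ⟨⟨_, _, cert44456⟩, ?_⟩
  refine List.forall_mem_cons.2 ⟨⟨_, _, cert44465⟩, ?_⟩
  refine List.forall_mem_cons.2 ⟨⟨_, _, cert44546⟩, ?_⟩
  refine List.forall_mem_cons.2 ⟨⟨_, _, cert44555⟩, ?_⟩
  refine List.forall_mem_cons.2 ⟨⟨_, _, cert44645⟩, ?_⟩
  refine List.forall_mem_cons.2 ⟨⟨_, _, cert45455⟩, ?_⟩
  refine List.forall_mem_cons.2 ⟨⟨_, _, cert44466⟩, ?_⟩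
  refine List.forall_mem_cons.2 ⟨⟨_, _, cert44556⟩, ?_⟩
  refine List.forall_mem_cons.2 ⟨⟨_, _, cert44565⟩, ?_⟩
  refine List.forall_mem_cons.2 ⟨⟨_, _, cert44646⟩, ?_⟩
  refine List.forall_mem_cons.2 ⟨⟨_, _, cert44655⟩, ?_⟩
  refine List.forall_mem_cons.2 ⟨⟨_, _, cert45456⟩, ?_⟩
  refine List.forall_mem_cons.2 ⟨⟨_, _, cert45465⟩, ?_⟩
  refine List.forall_mem_cons.2 ⟨⟨_, _, cert45546⟩, ?_⟩
  refine List.forall_mem_cons.2 ⟨⟨_, _, cert45555⟩, ?_⟩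
  refine List.forall_mem_cons.2 ⟨⟨_, _, cert44566⟩, ?_⟩
  refine List.forall_mem_cons.2 ⟨⟨_, _, cert44656⟩, ?_⟩
  refine List.forall_mem_cons.2 ⟨⟨_, _, cert44665⟩, ?_⟩
  refine List.forall_mem_cons.2 ⟨⟨_, _, cert45466⟩, ?_⟩
  refine List.forall_mem_cons.2 ⟨⟨_, _, cert45556⟩, ?_⟩
  refine List.forall_mem_cons.2 ⟨⟨_, _, cert45565⟩, ?_⟩
  refine List.forall_mem_cons.2 ⟨⟨_, _, cert45646⟩, ?_⟩
  refine List.forall_mem_cons.2 ⟨⟨_, _, cert45655⟩, ?_⟩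
  refine List.forall_mem_cons.2 ⟨⟨_, _, cert46465⟩, ?_⟩
  refine List.forall_mem_cons.2 ⟨⟨_, _, cert46555⟩, ?_⟩
  refine List.forall_mem_cons.2 ⟨⟨_, _, cert55555⟩, ?_⟩
  refine List.forall_mem_cons.2 ⟨⟨_, _, cert44666⟩, ?_⟩
  refine List.forall_mem_cons.2 ⟨⟨_, _, cert45566⟩, ?_⟩
  refine List.forall_mem_cons.2 ⟨⟨_, _, cert45656⟩, ?_⟩
  refine List.forall_mem_cons.2 ⟨⟨_, _, cert45665⟩, ?_⟩
  refine List.forall_mem_cons.2 ⟨⟨_, _, cert46466⟩, ?_⟩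
  refine List.forall_mem_cons.2 ⟨⟨_, _, cert46556⟩, ?_⟩
  refine List.forall_mem_cons.2 ⟨⟨_, _, cert46565⟩, ?_⟩
  refine List.forall_mem_cons.2 ⟨⟨_, _, cert46655⟩, ?_⟩
  refine List.forall_mem_cons.2 ⟨⟨_, _, cert55556⟩, ?_⟩
  refine List.forall_mem_cons.2 ⟨⟨_, _, cert45666⟩, ?_⟩
  refine List.forall_mem_cons.2 ⟨⟨_, _, cert46566⟩, ?_⟩
  refine List.forall_mem_cons.2 ⟨⟨_, _, cert46656⟩, ?_⟩
  exact fun _ h => absurd h List.not_mem_nil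

def lP5b : List (List ℕ) := [[4, 6, 6, 6, 5], [5, 5, 5, 6, 6], [5, 5, 6, 5, 6], [4, 6, 6, 6,
  6], [5, 5, 6, 6, 6], [5, 6, 5, 6, 6], [5, 6, 6, 6, 6]]

theorem allP5b : ∀ q ∈ lP5b, ∃ c G, Cert2 q c G := by
  unfold lP5b
  refine List.forall_mem_cons.2 ⟨⟨_, _, cert46665⟩, ?_⟩
  refine List.forall_mem_cons.2 ⟨⟨_, _, cert55566⟩, ?_⟩
  refine List.forall_mem_cons.2 ⟨⟨_, _, cert55656⟩, ?_⟩
  refine List.forall_mem_cons.2 ⟨⟨_, _, cert46666⟩, ?_⟩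
  refine List.forall_mem_cons.2 ⟨⟨_, _, cert55666⟩, ?_⟩
  refine List.forall_mem_cons.2 ⟨⟨_, _, cert56566⟩, ?_⟩
  refine List.forall_mem_cons.2 ⟨⟨_, _, cert56666⟩, ?_⟩
  exact fun _ h => absurd h List.not_mem_nil

def lP5c : List (List ℕ) := [[6, 6, 6, 6, 6]]

theorem allP5c : ∀ q ∈ lP5c, ∃ c G, Cert2 q c G := by
  unfold lP5c
  refine List.forall_mem_cons.2 ⟨⟨_, _, cert66666⟩, ?_⟩
  exact fun _ h => absurd h List.not_mem_nil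

def lP6a : List (List ℕ) := [[4, 4, 4, 4, 4, 5], [4, 4, 4, 4, 4, 6], [4, 4, 4, 4, 5, 5], [4,
  4, 4, 5, 4, 5], [4, 4, 5, 4, 4, 5], [4, 4, 4, 4, 5, 6], [4, 4, 4, 4, 6, 5], [4, 4, 4, 5, 4,
  6], [4, 4, 4, 5, 5, 5], [4, 4, 4, 6, 4, 5], [4, 4, 5, 4, 4, 6], [4, 4, 5, 4, 5, 5], [4, 4, 5,
  5, 4, 5], [4, 5, 4, 5, 4, 5], [4, 4, 4, 4, 6, 6], [4, 4, 4, 5, 5, 6], [4, 4, 4, 5, 6, 5], [4,
  4, 4, 6, 4, 6], [4, 4, 4, 6, 5, 5], [4, 4, 5, 4, 5, 6], [4, 4, 5, 4, 6, 5], [4, 4, 5, 5, 4,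
  6], [4, 4, 5, 5, 5, 5], [4, 4, 5, 6, 4, 5], [4, 4, 6, 4, 4, 6], [4, 4, 6, 4, 5, 5], [4, 4, 6,
  5, 4, 5], [4, 5, 4, 5, 4, 6], [4, 5, 4, 5, 5, 5], [4, 5, 5, 4, 5, 5], [4, 4, 4, 5, 6, 6], [4,
  4, 4, 6, 5, 6], [4, 4, 4, 6, 6, 5], [4, 4, 5, 4, 6, 6], [4, 4, 5, 5, 5, 6], [4, 4, 5, 5, 6,
  5], [4, 4, 5, 6, 4, 6], [4, 4, 5, 6, 5, 5], [4, 4, 6, 4, 5, 6], [4, 4, 6, 4, 6, 5], [4, 4, 6,
  5, 4, 6], [4, 4, 6, 5, 5, 5], [4, 4, 6, 6, 4, 5], [4, 5, 4, 5, 5, 6], [4, 5, 4, 5, 6, 5], [4,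
  5, 4, 6, 4, 6], [4, 5, 4, 6, 5, 5], [4, 5, 5, 4, 5, 6], [4, 5, 5, 4, 6, 5], [4, 5, 5, 5, 4,
  6], [4, 5, 5, 5, 5, 5], [4, 4, 4, 6, 6, 6], [4, 4, 5, 5, 6, 6], [4, 4, 5, 6, 5, 6], [4, 4, 5,
  6, 6, 5]]

theorem allP6a : ∀ q ∈ lP6a, ∃ c G, Cert2 q c G := by
  unfold lP6a
  refine List.forall_mem_cons.2 ⟨⟨_, _, cert444445⟩, ?_⟩
  refine List.forall_mem_cons.2 ⟨⟨_, _, cert444446⟩, ?_⟩
  refine List.forall_mem_cons.2 ⟨⟨_, _, cert444455⟩, ?_⟩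
  refine List.forall_mem_cons.2 ⟨⟨_, _, cert444545⟩, ?_⟩
  refine List.forall_mem_cons.2 ⟨⟨_, _, cert445445⟩, ?_⟩
  refine List.forall_mem_cons.2 ⟨⟨_, _, cert444456⟩, ?_⟩
  refine List.forall_mem_cons.2 ⟨⟨_, _, cert444465⟩, ?_⟩
  refine List.forall_mem_cons.2 ⟨⟨_, _, cert444546⟩, ?_⟩
  refine List.forall_mem_cons.2 ⟨⟨_, _, cert444555⟩, ?_⟩
  refine List.forall_mem_cons.2 ⟨⟨_, _, cert444645⟩, ?_⟩
  refine List.forall_mem_cons.2 ⟨⟨_, _, cert445446⟩, ?_⟩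
  refine List.forall_mem_cons.2 ⟨⟨_, _, cert445455⟩, ?_⟩
  refine List.forall_mem_cons.2 ⟨⟨_, _, cert445545⟩, ?_⟩
  refine List.forall_mem_cons.2 ⟨⟨_, _, cert454545⟩, ?_⟩
  refine List.forall_mem_cons.2 ⟨⟨_, _, cert444466⟩, ?_⟩
  refine List.forall_mem_cons.2 ⟨⟨_, _, cert444556⟩, ?_⟩
  refine List.forall_mem_cons.2 ⟨⟨_, _, cert444565⟩, ?_⟩
  refine List.forall_mem_cons.2 ⟨⟨_, _, cert444646⟩, ?_⟩
  refine List.forall_mem_cons.2 ⟨⟨_, _, cert444655⟩, ?_⟩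
  refine List.forall_mem_cons.2 ⟨⟨_, _, cert445456⟩, ?_⟩
  refine List.forall_mem_cons.2 ⟨⟨_, _, cert445465⟩, ?_⟩
  refine List.forall_mem_cons.2 ⟨⟨_, _, cert445546⟩, ?_⟩
  refine List.forall_mem_cons.2 ⟨⟨_, _, cert445555⟩, ?_⟩
  refine List.forall_mem_cons.2 ⟨⟨_, _, cert445645⟩, ?_⟩
  refine List.forall_mem_cons.2 ⟨⟨_, _, cert446446⟩, ?_⟩
  refine List.forall_mem_cons.2 ⟨⟨_, _, cert446455⟩, ?_⟩
  refine List.forall_mem_cons.2 ⟨⟨_, _, cert446545⟩, ?_⟩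
  refine List.forall_mem_cons.2 ⟨⟨_, _, cert454546⟩, ?_⟩
  refine List.forall_mem_cons.2 ⟨⟨_, _, cert454555⟩, ?_⟩
  refine List.forall_mem_cons.2 ⟨⟨_, _, cert455455⟩, ?_⟩
  refine List.forall_mem_cons.2 ⟨⟨_, _, cert444566⟩, ?_⟩
  refine List.forall_mem_cons.2 ⟨⟨_, _, cert444656⟩, ?_⟩
  refine List.forall_mem_cons.2 ⟨⟨_, _, cert444665⟩, ?_⟩
  refine List.forall_mem_cons.2 ⟨⟨_, _, cert445466⟩, ?_⟩
  refine List.forall_mem_cons.2 ⟨⟨_, _, cert445556⟩, ?_⟩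
  refine List.forall_mem_cons.2 ⟨⟨_, _, cert445565⟩, ?_⟩
  refine List.forall_mem_cons.2 ⟨⟨_, _, cert445646⟩, ?_⟩
  refine List.forall_mem_cons.2 ⟨⟨_, _, cert445655⟩, ?_⟩
  refine List.forall_mem_cons.2 ⟨⟨_, _, cert446456⟩, ?_⟩
  refine List.forall_mem_cons.2 ⟨⟨_, _, cert446465⟩, ?_⟩
  refine List.forall_mem_cons.2 ⟨⟨_, _, cert446546⟩, ?_⟩
  refine List.forall_mem_cons.2 ⟨⟨_, _, cert446555⟩, ?_⟩
  refine List.forall_mem_cons.2 ⟨⟨_, _, cert446645⟩, ?_⟩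
  refine List.forall_mem_cons.2 ⟨⟨_, _, cert454556⟩, ?_⟩
  refine List.forall_mem_cons.2 ⟨⟨_, _, cert454565⟩, ?_⟩
  refine List.forall_mem_cons.2 ⟨⟨_, _, cert454646⟩, ?_⟩
  refine List.forall_mem_cons.2 ⟨⟨_, _, cert454655⟩, ?_⟩
  refine List.forall_mem_cons.2 ⟨⟨_, _, cert455456⟩, ?_⟩
  refine List.forall_mem_cons.2 ⟨⟨_, _, cert455465⟩, ?_⟩
  refine List.forall_mem_cons.2 ⟨⟨_, _, cert455546⟩, ?_⟩
  refine List.forall_mem_cons.2 ⟨⟨_, _, cert455555⟩, ?_⟩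
  refine List.forall_mem_cons.2 ⟨⟨_, _, cert444666⟩, ?_⟩
  refine List.forall_mem_cons.2 ⟨⟨_, _, cert445566⟩, ?_⟩
  refine List.forall_mem_cons.2 ⟨⟨_, _, cert445656⟩, ?_⟩
  refine List.forall_mem_cons.2 ⟨⟨_, _, cert445665⟩, ?_⟩
  exact fun _ h => absurd h List.not_mem_nil

def lP6b : List (List ℕ) := [[4, 4, 6, 4, 6, 6], [4, 4, 6, 5, 5, 6], [4, 4, 6, 5, 6, 5], [4,
  4, 6, 6, 4, 6], [4, 4, 6, 6, 5, 5], [4, 5, 4, 5, 6, 6], [4, 5, 4, 6, 5, 6], [4, 5, 4, 6, 6,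
  5], [4, 5, 5, 4, 6, 6], [4, 5, 5, 5, 5, 6], [4, 5, 5, 5, 6, 5], [4, 5, 5, 6, 4, 6], [4, 5, 5,
  6, 5, 5], [4, 5, 6, 4, 5, 6], [4, 5, 6, 4, 6, 5], [4, 5, 6, 5, 4, 6], [4, 5, 6, 5, 5, 5], [4,
  6, 4, 6, 4, 6], [4, 6, 4, 6, 5, 5], [4, 6, 5, 4, 6, 5], [4, 6, 5, 5, 5, 5], [5, 5, 5, 5, 5,
  5], [4, 4, 5, 6, 6, 6], [4, 4, 6, 5, 6, 6], [4, 4, 6, 6, 5, 6], [4, 4, 6, 6, 6, 5], [4, 5, 4,
  6, 6, 6]]

theorem allP6b : ∀ q ∈ lP6b, ∃ c G, Cert2 q c G := by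
  unfold lP6b
  refine List.forall_mem_cons.2 ⟨⟨_, _, cert446466⟩, ?_⟩
  refine List.forall_mem_cons.2 ⟨⟨_, _, cert446556⟩, ?_⟩
  refine List.forall_mem_cons.2 ⟨⟨_, _, cert446565⟩, ?_⟩
  refine List.forall_mem_cons.2 ⟨⟨_, _, cert446646⟩, ?_⟩
  refine List.forall_mem_cons.2 ⟨⟨_, _, cert446655⟩, ?_⟩
  refine List.forall_mem_cons.2 ⟨⟨_, _, cert454566⟩, ?_⟩
  refine List.forall_mem_cons.2 ⟨⟨_, _, cert454656⟩, ?_⟩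
  refine List.forall_mem_cons.2 ⟨⟨_, _, cert454665⟩, ?_⟩
  refine List.forall_mem_cons.2 ⟨⟨_, _, cert455466⟩, ?_⟩
  refine List.forall_mem_cons.2 ⟨⟨_, _, cert455556⟩, ?_⟩
  refine List.forall_mem_cons.2 ⟨⟨_, _, cert455565⟩, ?_⟩
  refine List.forall_mem_cons.2 ⟨⟨_, _, cert455646⟩, ?_⟩
  refine List.forall_mem_cons.2 ⟨⟨_, _, cert455655⟩, ?_⟩
  refine List.forall_mem_cons.2 ⟨⟨_, _, cert456456⟩, ?_⟩
  refine List.forall_mem_cons.2 ⟨⟨_, _, cert456465⟩, ?_⟩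
  refine List.forall_mem_cons.2 ⟨⟨_, _, cert456546⟩, ?_⟩
  refine List.forall_mem_cons.2 ⟨⟨_, _, cert456555⟩, ?_⟩
  refine List.forall_mem_cons.2 ⟨⟨_, _, cert464646⟩, ?_⟩
  refine List.forall_mem_cons.2 ⟨⟨_, _, cert464655⟩, ?_⟩
  refine List.forall_mem_cons.2 ⟨⟨_, _, cert465465⟩, ?_⟩
  refine List.forall_mem_cons.2 ⟨⟨_, _, cert465555⟩, ?_⟩
  refine List.forall_mem_cons.2 ⟨⟨_, _, cert555555⟩, ?_⟩
  refine List.forall_mem_cons.2 ⟨⟨_, _, cert445666⟩, ?_⟩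
  refine List.forall_mem_cons.2 ⟨⟨_, _, cert446566⟩, ?_⟩
  refine List.forall_mem_cons.2 ⟨⟨_, _, cert446656⟩, ?_⟩
  refine List.forall_mem_cons.2 ⟨⟨_, _, cert446665⟩, ?_⟩
  refine List.forall_mem_cons.2 ⟨⟨_, _, cert454666⟩, ?_⟩
  exact fun _ h => absurd h List.not_mem_nil

def lP6c : List (List ℕ) := [[4, 5, 5, 5, 6, 6], [4, 5, 5, 6, 5, 6], [4, 5, 5, 6, 6, 5], [4,
  5, 6, 4, 6, 6], [4, 5, 6, 5, 5, 6], [4, 5, 6, 5, 6, 5], [4, 5, 6, 6, 4, 6], [4, 5, 6, 6, 5,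
  5], [4, 6, 4, 6, 5, 6], [4, 6, 4, 6, 6, 5], [4, 6, 5, 4, 6, 6], [4, 6, 5, 5, 5, 6], [4, 6, 5,
  5, 6, 5], [4, 6, 5, 6, 5, 5], [4, 6, 6, 5, 5, 5], [5, 5, 5, 5, 5, 6]]

theorem allP6c : ∀ q ∈ lP6c, ∃ c G, Cert2 q c G := by
  unfold lP6c
  refine List.forall_mem_cons.2 ⟨⟨_, _, cert455566⟩, ?_⟩
  refine List.forall_mem_cons.2 ⟨⟨_, _, cert455656⟩, ?_⟩
  refine List.forall_mem_cons.2 ⟨⟨_, _, cert455665⟩, ?_⟩
  refine List.forall_mem_cons.2 ⟨⟨_, _, cert456466⟩, ?_⟩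
  refine List.forall_mem_cons.2 ⟨⟨_, _, cert456556⟩, ?_⟩
  refine List.forall_mem_cons.2 ⟨⟨_, _, cert456565⟩, ?_⟩
  refine List.forall_mem_cons.2 ⟨⟨_, _, cert456646⟩, ?_⟩
  refine List.forall_mem_cons.2 ⟨⟨_, _, cert456655⟩, ?_⟩
  refine List.forall_mem_cons.2 ⟨⟨_, _, cert464656⟩, ?_⟩
  refine List.forall_mem_cons.2 ⟨⟨_, _, cert464665⟩, ?_⟩
  refine List.forall_mem_cons.2 ⟨⟨_, _, cert465466⟩, ?_⟩
  refine List.forall_mem_cons.2 ⟨⟨_, _, cert465556⟩, ?_⟩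
  refine List.forall_mem_cons.2 ⟨⟨_, _, cert465565⟩, ?_⟩
  refine List.forall_mem_cons.2 ⟨⟨_, _, cert465655⟩, ?_⟩
  refine List.forall_mem_cons.2 ⟨⟨_, _, cert466555⟩, ?_⟩
  refine List.forall_mem_cons.2 ⟨⟨_, _, cert555556⟩, ?_⟩
  exact fun _ h => absurd h List.not_mem_nil

def lP6d : List (List ℕ) := [[4, 4, 6, 6, 6, 6], [4, 5, 5, 6, 6, 6], [4, 5, 6, 5, 6, 6], [4,
  5, 6, 6, 5, 6], [4, 5, 6, 6, 6, 5], [4, 6, 4, 6, 6, 6]]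

theorem allP6d : ∀ q ∈ lP6d, ∃ c G, Cert2 q c G := by
  unfold lP6d
  refine List.forall_mem_cons.2 ⟨⟨_, _, cert446666⟩, ?_⟩
  refine List.forall_mem_cons.2 ⟨⟨_, _, cert455666⟩, ?_⟩
  refine List.forall_mem_cons.2 ⟨⟨_, _, cert456566⟩, ?_⟩
  refine List.forall_mem_cons.2 ⟨⟨_, _, cert456656⟩, ?_⟩
  refine List.forall_mem_cons.2 ⟨⟨_, _, cert456665⟩, ?_⟩
  refine List.forall_mem_cons.2 ⟨⟨_, _, cert464666⟩, ?_⟩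
  exact fun _ h => absurd h List.not_mem_nil

def lP6e : List (List ℕ) := [[4, 6, 5, 5, 6, 6], [4, 6, 5, 6, 5, 6], [4, 6, 5, 6, 6, 5], [4,
  6, 6, 4, 6, 6], [4, 6, 6, 5, 5, 6], [4, 6, 6, 5, 6, 5]]

theorem allP6e : ∀ q ∈ lP6e, ∃ c G, Cert2 q c G := by
  unfold lP6e
  refine List.forall_mem_cons.2 ⟨⟨_, _, cert465566⟩, ?_⟩
  refine List.forall_mem_cons.2 ⟨⟨_, _, cert465656⟩, ?_⟩
  refine List.forall_mem_cons.2 ⟨⟨_, _, cert465665⟩, ?_⟩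
  refine List.forall_mem_cons.2 ⟨⟨_, _, cert466466⟩, ?_⟩
  refine List.forall_mem_cons.2 ⟨⟨_, _, cert466556⟩, ?_⟩
  refine List.forall_mem_cons.2 ⟨⟨_, _, cert466565⟩, ?_⟩
  exact fun _ h => absurd h List.not_mem_nil

def lP6f : List (List ℕ) := [[4, 6, 6, 6, 5, 5], [5, 5, 5, 5, 6, 6], [5, 5, 5, 6, 5, 6], [5,
  5, 6, 5, 5, 6], [4, 5, 6, 6, 6, 6]]

theorem allP6f : ∀ q ∈ lP6f, ∃ c G, Cert2 q c G := by
  unfold lP6f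
  refine List.forall_mem_cons.2 ⟨⟨_, _, cert466655⟩, ?_⟩
  refine List.forall_mem_cons.2 ⟨⟨_, _, cert555566⟩, ?_⟩
  refine List.forall_mem_cons.2 ⟨⟨_, _, cert555656⟩, ?_⟩
  refine List.forall_mem_cons.2 ⟨⟨_, _, cert556556⟩, ?_⟩
  refine List.forall_mem_cons.2 ⟨⟨_, _, cert456666⟩, ?_⟩
  exact fun _ h => absurd h List.not_mem_nil

def lP6g : List (List ℕ) := [[4, 6, 5, 6, 6, 6], [4, 6, 6, 5, 6, 6]]

theorem allP6g : ∀ q ∈ lP6g, ∃ c G, Cert2 q c G := by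
  unfold lP6g
  refine List.forall_mem_cons.2 ⟨⟨_, _, cert465666⟩, ?_⟩
  refine List.forall_mem_cons.2 ⟨⟨_, _, cert466566⟩, ?_⟩
  exact fun _ h => absurd h List.not_mem_nil

def lP6h : List (List ℕ) := [[4, 6, 6, 6, 5, 6], [4, 6, 6, 6, 6, 5]]

theorem allP6h : ∀ q ∈ lP6h, ∃ c G, Cert2 q c G := by
  unfold lP6h
  refine List.forall_mem_cons.2 ⟨⟨_, _, cert466656⟩, ?_⟩
  refine List.forall_mem_cons.2 ⟨⟨_, _, cert466665⟩, ?_⟩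
  exact fun _ h => absurd h List.not_mem_nil

def lP6i : List (List ℕ) := [[5, 5, 5, 6, 6, 6], [5, 5, 6, 5, 6, 6]]

theorem allP6i : ∀ q ∈ lP6i, ∃ c G, Cert2 q c G := by
  unfold lP6i
  refine List.forall_mem_cons.2 ⟨⟨_, _, cert555666⟩, ?_⟩
  refine List.forall_mem_cons.2 ⟨⟨_, _, cert556566⟩, ?_⟩
  exact fun _ h => absurd h List.not_mem_nil

def lP6j : List (List ℕ) := [[5, 5, 6, 6, 5, 6], [5, 6, 5, 6, 5, 6]]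

theorem allP6j : ∀ q ∈ lP6j, ∃ c G, Cert2 q c G := by
  unfold lP6j
  refine List.forall_mem_cons.2 ⟨⟨_, _, cert556656⟩, ?_⟩
  refine List.forall_mem_cons.2 ⟨⟨_, _, cert565656⟩, ?_⟩
  exact fun _ h => absurd h List.not_mem_nil

def lP6k : List (List ℕ) := [[4, 6, 6, 6, 6, 6]]

theorem allP6k : ∀ q ∈ lP6k, ∃ c G, Cert2 q c G := by
  unfold lP6k
  refine List.forall_mem_cons.2 ⟨⟨_, _, cert466666⟩, ?_⟩
  exact fun _ h => absurd h List.not_mem_nil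

def lP6l : List (List ℕ) := [[5, 5, 6, 6, 6, 6]]

theorem allP6l : ∀ q ∈ lP6l, ∃ c G, Cert2 q c G := by
  unfold lP6l
  refine List.forall_mem_cons.2 ⟨⟨_, _, cert556666⟩, ?_⟩
  exact fun _ h => absurd h List.not_mem_nil

def lP6m : List (List ℕ) := [[5, 6, 5, 6, 6, 6]]

theorem allP6m : ∀ q ∈ lP6m, ∃ c G, Cert2 q c G := by
  unfold lP6m
  refine List.forall_mem_cons.2 ⟨⟨_, _, cert565666⟩, ?_⟩
  exact fun _ h => absurd h List.not_mem_nil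

def lP6n : List (List ℕ) := [[5, 6, 6, 5, 6, 6]]

theorem allP6n : ∀ q ∈ lP6n, ∃ c G, Cert2 q c G := by
  unfold lP6n
  refine List.forall_mem_cons.2 ⟨⟨_, _, cert566566⟩, ?_⟩
  exact fun _ h => absurd h List.not_mem_nil

def cl : List (List ℕ) := lP4a ++ lP5a ++ lP5b ++ lP5c ++ lP6a ++ lP6b ++ lP6c ++ lP6d ++ lP6e
  ++ lP6f ++ lP6g ++ lP6h ++ lP6i ++ lP6j ++ lP6k ++ lP6l ++ lP6m ++ lP6n

theorem cl_cert : ∀ q ∈ cl, ∃ c G, Cert2 q c G := by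
  intro q h
  unfold cl at h
  simp only [List.mem_append] at h
  rcases h with ((((((((((((((((h | h) | h) | h) | h) | h) | h) | h) | h) | h) | h) | h) | h) | h) | h) | h) | h) | h
  · exact allP4a q h
  · exact allP5a q h
  · exact allP5b q h
  · exact allP5c q h
  · exact allP6a q h
  · exact allP6b q h
  · exact allP6c q h
  · exact allP6d q h
  · exact allP6e q h
  · exact allP6f q h
  · exact allP6g q h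
  · exact allP6h q h
  · exact allP6i q h
  · exact allP6j q h
  · exact allP6k q h
  · exact allP6l q h
  · exact allP6m q h
  · exact allP6n q h

/-- the wheels without legs -/
def zer : List (List ℕ) := [[4, 4, 4, 4], [4, 4, 4, 4, 4], [4, 4, 4, 4, 4, 4]]

theorem good_zer : ∀ q ∈ zer, Good q := by
  unfold zer
  refine List.forall_mem_cons.2 ⟨⟨⟨by decide +kernel, by decide +kernel, by decide +kernel,
    by decide +kernel, by decide +kernel, by decide +kernel, by decide +kernel,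
    by decide +kernel⟩, ⟨by decide +kernel, by decide +kernel, by decide +kernel,
    by decide +kernel⟩, Or.inl (by decide +kernel)⟩, ?_⟩
  refine List.forall_mem_cons.2 ⟨⟨⟨by decide +kernel, by decide +kernel, by decide +kernel,
    by decide +kernel, by decide +kernel, by decide +kernel, by decide +kernel,
    by decide +kernel⟩, ⟨by decide +kernel, by decide +kernel, by decide +kernel,
    by decide +kernel⟩, Or.inl (by decide +kernel)⟩, ?_⟩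
  refine List.forall_mem_cons.2 ⟨⟨⟨by decide +kernel, by decide +kernel, by decide +kernel,
    by decide +kernel, by decide +kernel, by decide +kernel, by decide +kernel,
    by decide +kernel⟩, ⟨by decide +kernel, by decide +kernel, by decide +kernel,
    by decide +kernel⟩, Or.inl (by decide +kernel)⟩, ?_⟩
  exact fun _ h => absurd h List.not_mem_nil

theorem cover : (reps4 ++ (reps5 ++ reps6)).all (fun q => cl.contains q || zer.contains q) =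
    true := by decide +kernel

theorem good_all (q : List ℕ) (h : q ∈ reps4 ++ (reps5 ++ reps6)) : Good q := by
  have h1 := List.all_eq_true.1 cover q h
  rw [Bool.or_eq_true, List.contains_iff_mem, List.contains_iff_mem] at h1
  rcases h1 with h1 | h1
  · obtain ⟨c, G, hc⟩ := cl_cert q h1
    exact ⟨hc.wok, hc.ring, Or.inr ⟨c, G, hc⟩⟩
  · exact good_zer q h1

end Pool.H64.NC.Dat
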