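import Pool.Agent.Helper64.NC.Ck.Code2

/-! NC: certificates for wheels (generated). -/

set_option maxRecDepth 1000000

namespace Pool.H64.NC.Dat

open Code

def c4445 : Tree := .leaf

def g4445 : GTree := .leaf

theorem cert4445 : Cert2 [4, 4, 4, 5] c4445 g4445 where
  wok := ⟨by decide +kernel, by decide +kernel, by decide +kernel, by decide +kernel,
    by decide +kernel, by decide +kernel, by decide +kernel, by decide +kernel⟩
  ring := ⟨by decide +kernel, by decide +kernel, by decide +kernel, by decide +kernel⟩
  en := by decide +kernel
  cfv := by decide +kernel
  dfs := by decide +kernel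
  coc := by decide +kernel
  trp := by decide +kernel

def c4446 : Tree := .leaf

def g4446 : GTree := (.node .leaf 3 [(2251821288652802, 1, []), (2533291970330628, 1, []), (2814749767434242, 1, 
  []), (2814758357041157, 1, [])] .leaf)

theorem cert4446 : Cert2 [4, 4, 4, 6] c4446 g4446 where
  wok := ⟨by decide +kernel, by decide +kernel, by decide +kernel, by decide +kernel,
    by decide +kernel, by decide +kernel, by decide +kernel, by decide +kernel⟩
  ring := ⟨by decide +kernel, by decide +kernel, by decide +kernel, by decide +kernel⟩
  en := by decide +kernel
  cfv := by decide +kernel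
  dfs := by decide +kernel
  coc := by decide +kernel
  trp := by decide +kernel

def c4455 : Tree := .leaf

def g4455 : GTree := (.node .leaf 3 [(1125921381810178, 1, []), (1407392063488004, 1, []), (2251838468653057, 1, 
  []), (2533317740199936, 1, [])] .leaf)

theorem cert4455 : Cert2 [4, 4, 5, 5] c4455 g4455 where
  wok := ⟨by decide +kernel, by decide +kernel, by decide +kernel, by decide +kernel,
    by decide +kernel, by decide +kernel, by decide +kernel, by decide +kernel⟩
  ring := ⟨by decide +kernel, by decide +kernel, by decide +kernel, by decide +kernel⟩
  en := by decide +kernel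
  cfv := by decide +kernel
  dfs := by decide +kernel
  coc := by decide +kernel
  trp := by decide +kernel

def c4545 : Tree := .leaf

def g4545 : GTree := (.node .leaf 3 [(1125904202334213, 1, []), (2251821288783873, 1, [])] .leaf)

theorem cert4545 : Cert2 [4, 5, 4, 5] c4545 g4545 where
  wok := ⟨by decide +kernel, by decide +kernel, by decide +kernel, by decide +kernel,
    by decide +kernel, by decide +kernel, by decide +kernel, by decide +kernel⟩
  ring := ⟨by decide +kernel, by decide +kernel, by decide +kernel, by decide +kernel⟩
  en := by decide +kernel
  cfv := by decide +kernel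
  dfs := by decide +kernel
  coc := by decide +kernel
  trp := by decide +kernel

def c4456 : Tree := .leaf

def g4456 : GTree := (.node (.node .leaf 3 [(145241109457666050, 513, []), (145522580139343876, 513, [])] .leaf) 5 
  [(76561232320266241, 18, []), (76842711591813120, 18, [])] (.node .leaf 6 [(2815849279062018, 
  288, []), (2815857868668933, 288, [])] .leaf))

theorem cert4456 : Cert2 [4, 4, 5, 6] c4456 g4456 where
  wok := ⟨by decide +kernel, by decide +kernel, by decide +kernel, by decide +kernel,
    by decide +kernel, by decide +kernel, by decide +kernel, by decide +kernel⟩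
  ring := ⟨by decide +kernel, by decide +kernel, by decide +kernel, by decide +kernel⟩
  en := by decide +kernel
  cfv := by decide +kernel
  dfs := by decide +kernel
  coc := by decide +kernel
  trp := by decide +kernel

def c4465 : Tree := .leaf

def g4465 : GTree := (.node (.node .leaf 3 [(72620578351415298, 513, []), (72620586941022213, 513, [])] .leaf) 5 
  [(1128120405065730, 18, []), (1409591086743556, 18, [])] (.node .leaf 6 [(2252972340019201, 
  288, []), (2534451611566080, 288, [])] .leaf))

theorem cert4465 : Cert2 [4, 4, 6, 5] c4465 g4465 where
  wok := ⟨by decide +kernel, by decide +kernel, by decide +kernel, by decide +kernel,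
    by decide +kernel, by decide +kernel, by decide +kernel, by decide +kernel⟩
  ring := ⟨by decide +kernel, by decide +kernel, by decide +kernel, by decide +kernel⟩
  en := by decide +kernel
  cfv := by decide +kernel
  dfs := by decide +kernel
  coc := by decide +kernel
  trp := by decide +kernel

def c4546 : Tree := .leaf

def g4546 : GTree := (.node (.node .leaf 3 [(145241092278190085, 513, [0])] .leaf) 5 [(76561215140397057, 18, [0])] 
  (.node .leaf 6 [(2251821305430018, 288, []), (2533291987107844, 288, []), (2814758373818373, 
  288, [])] .leaf))

theorem cert4546 : Cert2 [4, 5, 4, 6] c4546 g4546 where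
  wok := ⟨by decide +kernel, by decide +kernel, by decide +kernel, by decide +kernel,
    by decide +kernel, by decide +kernel, by decide +kernel, by decide +kernel⟩
  ring := ⟨by decide +kernel, by decide +kernel, by decide +kernel, by decide +kernel⟩
  en := by decide +kernel
  cfv := by decide +kernel
  dfs := by decide +kernel
  coc := by decide +kernel
  trp := by decide +kernel

def c4555 : Tree := .leaf

def g4555 : GTree := (.node (.node .leaf 3 [(72057632693288962, 513, []), (72339103374966788, 513, []), 
  (72620561171546114, 513, [])] .leaf) 5 [(1127003713961989, 18, [0])] (.node .leaf 6 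
  [(1125921398587394, 288, []), (1407392080265220, 288, []), (2533317756977152, 288, [])] 
  .leaf))

theorem cert4555 : Cert2 [4, 5, 5, 5] c4555 g4555 where
  wok := ⟨by decide +kernel, by decide +kernel, by decide +kernel, by decide +kernel,
    by decide +kernel, by decide +kernel, by decide +kernel, by decide +kernel⟩
  ring := ⟨by decide +kernel, by decide +kernel, by decide +kernel, by decide +kernel⟩
  en := by decide +kernel
  cfv := by decide +kernel
  dfs := by decide +kernel
  coc := by decide +kernel
  trp := by decide +kernel

def c4466 : Tree := .leaf

def g4466 : GTree := (.node (.node (.node .leaf 3 [(216735766427271170, 12801, []), (216735775016878085, 12801, 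
  [])] .leaf) 5 [(145243308480921602, 12306, []), (145524779162599428, 12306, [])] .leaf) 10 
  [(76562366191632385, 4656, []), (76843845463179264, 4656, [])] (.node (.node .leaf 12 
  [(2818048302317570, 8976, []), (2818056891924485, 8976, [])] .leaf) 15 [(2251890008129538, 
  8961, []), (2533360689807364, 8961, []), (2814784127172610, 291, []), (2814792716779525, 291, 
  []), (5629538189180929, 8961, []), (5911017460727808, 8961, [])] .leaf))

theorem cert4466 : Cert2 [4, 4, 6, 6] c4466 g4466 where
  wok := ⟨by decide +kernel, by decide +kernel, by decide +kernel, by decide +kernel,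
    by decide +kernel, by decide +kernel, by decide +kernel, by decide +kernel⟩
  ring := ⟨by decide +kernel, by decide +kernel, by decide +kernel, by decide +kernel⟩
  en := by decide +kernel
  cfv := by decide +kernel
  dfs := by decide +kernel
  coc := by decide +kernel
  trp := by decide +kernel

def c4556 : Tree := .leaf

def g4556 : GTree := (.node (.node (.node .leaf 3 [(216172820769144834, 12801, []), (216454291450822660, 12801, 
  []), (216735749247401986, 12801, [])] .leaf) 5 [(145242191789817861, 12306, [0])] (.node .leaf 
  6 [(145241109474443266, 12576, []), (145522580156121092, 12576, [])] .leaf)) 10 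
  [(76842711608590336, 4656, [0])] (.node (.node .leaf 12 [(2815857885446149, 8976, [0])] .leaf) 
  15 [(2251838468915205, 8961, []), (2251838469046274, 291, []), (2533309150724100, 291, []), 
  (2814766947303426, 291, []), (5629521009311745, 8961, [])] .leaf))

theorem cert4556 : Cert2 [4, 5, 5, 6] c4556 g4556 where
  wok := ⟨by decide +kernel, by decide +kernel, by decide +kernel, by decide +kernel,
    by decide +kernel, by decide +kernel, by decide +kernel, by decide +kernel⟩
  ring := ⟨by decide +kernel, by decide +kernel, by decide +kernel, by decide +kernel⟩
  en := by decide +kernel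
  cfv := by decide +kernel
  dfs := by decide +kernel
  coc := by decide +kernel
  trp := by decide +kernel

def c4565 : Tree := (.node (.node .leaf 7984 1 .leaf) 9200 1 .leaf)

def g4565 : GTree := (.node (.node (.node .leaf 3 [(72622760194801666, 12801, [0])] .leaf) 5 [(72058766564655106, 
  12306, []), (72340237246332932, 12306, [])] (.node .leaf 6 [(72620586957799429, 12576, [0])] 
  .leaf)) 9 [(1129202737217541, 531, [0])] (.node (.node .leaf 10 [(1128120421842946, 4656, []), 
  (1409591103520772, 4656, [])] .leaf) 12 [(2534451628343296, 8976, [1])] (.node .leaf 15 
  [(1125938562072581, 8961, [0]), (1125938562203650, 291, []), (1407409243881476, 291, []), 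
  (2251890008260609, 291, [])] .leaf)))

theorem cert4565 : Cert2 [4, 5, 6, 5] c4565 g4565 where
  wok := ⟨by decide +kernel, by decide +kernel, by decide +kernel, by decide +kernel,
    by decide +kernel, by decide +kernel, by decide +kernel, by decide +kernel⟩
  ring := ⟨by decide +kernel, by decide +kernel, by decide +kernel, by decide +kernel⟩
  en := by decide +kernel
  cfv := by decide +kernel
  dfs := by decide +kernel
  coc := by decide +kernel
  trp := by decide +kernel

def c4646 : Tree := .leaf

def g4646 : GTree := (.node (.node (.node .leaf 3 [(216172803589275650, 12801, []), (216454274270953476, 12801, 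
  []), (216735740657664005, 12801, [])] .leaf) 6 [(145241092295491589, 12576, [0])] .leaf) 9 
  [(76561215173951489, 531, [0])] (.node (.node .leaf 12 [(2251821338984450, 8976, []), 
  (2533292020662276, 8976, []), (2814758407372805, 8976, [])] .leaf) 15 [(2251821289046021, 
  8961, []), (2251821289177090, 291, []), (2533291970854916, 291, []), (2814749768482818, 8961, 
  []), (2814758357565445, 291, []), (5910983101513728, 8961, [])] .leaf))

theorem cert4646 : Cert2 [4, 6, 4, 6] c4646 g4646 where
  wok := ⟨by decide +kernel, by decide +kernel, by decide +kernel, by decide +kernel,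
    by decide +kernel, by decide +kernel, by decide +kernel, by decide +kernel⟩
  ring := ⟨by decide +kernel, by decide +kernel, by decide +kernel, by decide +kernel⟩
  en := by decide +kernel
  cfv := by decide +kernel
  dfs := by decide +kernel
  coc := by decide +kernel
  trp := by decide +kernel

def c4655 : Tree := .leaf

def g4655 : GTree := (.node (.node (.node .leaf 3 [(72621652093435909, 12801, [0])] .leaf) 5 [(72620561205100546, 
  12306, [0])] (.node .leaf 6 [(72057632710590466, 12576, []), (72339103392268292, 12576, [])] 
  .leaf)) 10 [(1127003731263493, 4656, [0])] (.node (.node .leaf 12 [(1125921432141826, 8976, 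
  []), (1407392113819652, 8976, []), (2533317790531584, 8976, [])] .leaf) 15 [(1125921382203397, 
  8961, []), (1125921382334466, 291, []), (1407392064012292, 291, []), (2251838469701633, 8961, 
  []), (2533317740724224, 291, [])] .leaf))

theorem cert4655 : Cert2 [4, 6, 5, 5] c4655 g4655 where
  wok := ⟨by decide +kernel, by decide +kernel, by decide +kernel, by decide +kernel,
    by decide +kernel, by decide +kernel, by decide +kernel, by decide +kernel⟩
  ring := ⟨by decide +kernel, by decide +kernel, by decide +kernel, by decide +kernel⟩
  en := by decide +kernel
  cfv := by decide +kernel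
  dfs := by decide +kernel
  coc := by decide +kernel
  trp := by decide +kernel

def c5555 : Tree := .leaf

def g5555 : GTree := (.node (.node (.node .leaf 3 [(72621643503566858, 12801, []), (72621652093173765, 12801, [])] 
  .leaf) 6 [(72057632693289218, 12576, []), (72620561171546370, 12576, [])] .leaf) 9 
  [(1408483002023940, 531, []), (2815857885446153, 531, [])] (.node (.node .leaf 12 
  [(1125921398587650, 8976, []), (2533317756977408, 8976, [])] .leaf) 15 [(1125921381941253, 
  8961, []), (1407392063750148, 291, []), (2251838468915209, 291, []), (2533309150724104, 8961, 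
  [])] .leaf))

theorem cert5555 : Cert2 [5, 5, 5, 5] c5555 g5555 where
  wok := ⟨by decide +kernel, by decide +kernel, by decide +kernel, by decide +kernel,
    by decide +kernel, by decide +kernel, by decide +kernel, by decide +kernel⟩
  ring := ⟨by decide +kernel, by decide +kernel, by decide +kernel, by decide +kernel⟩
  en := by decide +kernel
  cfv := by decide +kernel
  dfs := by decide +kernel
  coc := by decide +kernel
  trp := by decide +kernel

def c4566 : Tree := (.node (.node .leaf 193552 1 .leaf) 216848 1 .leaf)

def g4566 : GTree := (.node (.node (.node (.node .leaf 3 [(216737948270657538, 274945, [0])] .leaf) 5 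
  [(216173954640510978, 274450, []), (216455425322188804, 274450, [])] (.node .leaf 6 
  [(216735775033655301, 274720, [0])] .leaf)) 9 [(145244390813073413, 262675, [0])] (.node 
  (.node .leaf 10 [(145243308497698818, 266800, []), (145524779179376644, 266800, [])] .leaf) 15 
  [(145241126637928453, 271105, [0]), (145241126638059522, 262435, []), (145522597319737348, 
  262435, [])] .leaf)) 20 [(76843845479956480, 144400, [1])] (.node (.node (.node .leaf 23 
  [(76561283859873793, 12580, [0])] .leaf) 24 [(2818056908701701, 213520, [1])] .leaf) 27 
  [(2816965970558978, 4660, [0]), (5631720032567297, 213505, [0])] (.node (.node .leaf 29 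
  [(2252972340281349, 213010, [0]), (2252972340412418, 8980, []), (2534443022090244, 8980, [])] 
  .leaf) 30 [(2251890024906754, 213280, []), (2533360706584580, 213280, []), (2814792733556741, 
  74560, [1]), (5911017477505024, 213280, [])] .leaf)))

theorem cert4566 : Cert2 [4, 5, 6, 6] c4566 g4566 where
  wok := ⟨by decide +kernel, by decide +kernel, by decide +kernel, by decide +kernel,
    by decide +kernel, by decide +kernel, by decide +kernel, by decide +kernel⟩
  ring := ⟨by decide +kernel, by decide +kernel, by decide +kernel, by decide +kernel⟩
  en := by decide +kernel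
  cfv := by decide +kernel
  dfs := by decide +kernel
  coc := by decide +kernel
  trp := by decide +kernel

def c4656 : Tree := (.node (.node .leaf 216848 1 .leaf) 992016 1 .leaf)

def g4656 : GTree := (.node (.node (.node (.node .leaf 3 [(216736840169291781, 274945, [0])] .leaf) 5 
  [(216735749280956418, 274450, [0])] (.node .leaf 6 [(216172820786446338, 274720, []), 
  (216454291468124164, 274720, [])] .leaf)) 10 [(145242191807119365, 266800, [0])] (.node (.node 
  .leaf 12 [(145241109507997698, 271120, []), (145522580189675524, 271120, [])] .leaf) 15 
  [(145241109458059269, 271105, [0]), (145241109458190338, 262435, []), (145522580139868164, 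
  262435, [])] .leaf)) 20 [(76842711642144768, 144400, [0])] (.node (.node (.node .leaf 23 
  [(76561232321314817, 144385, [0]), (76842711592337408, 12580, [0])] .leaf) 24 
  [(2815857919000581, 213520, [1])] .leaf) 27 [(2815849280110594, 213505, []), 
  (2815857869193221, 4660, [0]), (5912082613141504, 213505, [])] (.node (.node .leaf 29 
  [(2814766980857858, 8980, [1]), (5629521042866177, 213010, [1])] .leaf) 30 [(2251838486216709, 
  213280, [1]), (2251838486347778, 74560, []), (2533309168025604, 74560, [])] .leaf)))

theorem cert4656 : Cert2 [4, 6, 5, 6] c4656 g4656 where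
  wok := ⟨by decide +kernel, by decide +kernel, by decide +kernel, by decide +kernel,
    by decide +kernel, by decide +kernel, by decide +kernel, by decide +kernel⟩
  ring := ⟨by decide +kernel, by decide +kernel, by decide +kernel, by decide +kernel⟩
  en := by decide +kernel
  cfv := by decide +kernel
  dfs := by decide +kernel
  coc := by decide +kernel
  trp := by decide +kernel

def c4665 : Tree := (.node (.node .leaf 275184 1 .leaf) 278288 1 .leaf)

def g4665 : GTree := (.node (.node (.node (.node .leaf 3 [(72623851116691461, 274945, [1])] .leaf) 5 
  [(72622760228356098, 274450, [1])] (.node .leaf 10 [(72058766581956610, 266800, []), 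
  (72340237263634436, 266800, [])] .leaf)) 12 [(72620586991353861, 271120, [1])] (.node (.node 
  .leaf 15 [(72057684232896514, 271105, []), (72339154914574340, 271105, []), 
  (72620578352463874, 271105, []), (72620586941546501, 262435, [0])] .leaf) 18 
  [(1129202754519045, 78400, [1])] .leaf)) 20 [(1128120455397378, 144400, []), 
  (1409591137075204, 144400, [])] (.node (.node (.node .leaf 23 [(1128120405458949, 144385, 
  [0]), (1128120405590018, 12580, []), (1409591087267844, 12580, [])] .leaf) 24 
  [(2534451661897728, 213520, [0])] .leaf) 27 [(2252972341067777, 213505, [0]), 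
  (2534451612090368, 4660, [0])] (.node (.node .leaf 29 [(2251890041815041, 8980, [0])] .leaf) 
  30 [(1125938579374085, 213280, [0]), (1125938579505154, 74560, []), (1407409261182980, 74560, 
  [])] .leaf)))

theorem cert4665 : Cert2 [4, 6, 6, 5] c4665 g4665 where
  wok := ⟨by decide +kernel, by decide +kernel, by decide +kernel, by decide +kernel,
    by decide +kernel, by decide +kernel, by decide +kernel, by decide +kernel⟩
  ring := ⟨by decide +kernel, by decide +kernel, by decide +kernel, by decide +kernel⟩
  en := by decide +kernel
  cfv := by decide +kernel
  dfs := by decide +kernel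
  coc := by decide +kernel
  trp := by decide +kernel

def c5556 : Tree := .leaf

def g5556 : GTree := (.node (.node (.node (.node .leaf 3 [(216736831579422730, 274945, []), (216736840169029637, 
  274945, [])] .leaf) 6 [(216172820769145090, 274720, []), (216735749247402242, 274720, [])] 
  .leaf) 9 [(145523671077879812, 262675, [0])] (.node (.node .leaf 12 [(145241109474443522, 
  271120, [0])] .leaf) 15 [(145241109457797125, 271105, [0]), (145522580139606020, 262435, [0])] 
  .leaf)) 17 [(77125251737059337, 12820, [0])] (.node (.node (.node .leaf 20 
  [(76842711608590592, 144400, [0])] .leaf) 23 [(76561232320528393, 12580, [0]), 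
  (76842703002337288, 144385, [0])] .leaf) 27 [(2815849279324170, 4660, []), (2815857868931077, 
  4660, []), (5630603341332489, 213505, [0])] (.node (.node .leaf 29 [(2533317756977156, 213010, 
  []), (5910991707635720, 213010, [])] .leaf) 30 [(2251838469046530, 74560, []), 
  (2814766947303682, 74560, []), (5629521009312001, 213280, [0])] .leaf)))

theorem cert5556 : Cert2 [5, 5, 5, 6] c5556 g5556 where
  wok := ⟨by decide +kernel, by decide +kernel, by decide +kernel, by decide +kernel,
    by decide +kernel, by decide +kernel, by decide +kernel, by decide +kernel⟩
  ring := ⟨by decide +kernel, by decide +kernel, by decide +kernel, by decide +kernel⟩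
  en := by decide +kernel
  cfv := by decide +kernel
  dfs := by decide +kernel
  coc := by decide +kernel
  trp := by decide +kernel

def c4666 : Tree := (.node (.node .leaf 5317455 1 .leaf) 5436417 1 (.node .leaf 6234881 1 .leaf))

def g4666 : GTree := (.node (.node (.node (.node (.node .leaf 3 [(216739039192547333, 5517825, [0])] .leaf) 5 
  [(216737948304211970, 5517330, [0])] .leaf) 10 [(216173954657812482, 5509680, []), 
  (216455425339490308, 5509680, [])] (.node .leaf 12 [(216735775067209733, 5514000, [0])] 
  .leaf)) 15 [(216172872308752386, 5513985, []), (216454342990430212, 5513985, []), 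
  (216735766428319746, 5513985, []), (216735775017402373, 5505315, [1])] (.node (.node (.node 
  .leaf 18 [(145244390830374917, 5321280, [0])] .leaf) 20 [(145243308531253250, 5387280, []), 
  (145524779212931076, 5387280, [])] .leaf) 23 [(145243308481314821, 5387265, [0]), 
  (145243308481445890, 5255460, []), (145524779163123716, 5255460, [])] (.node .leaf 30 
  [(145241126655229957, 5456160, [1]), (145241126655361026, 5317440, []), (145522597337038852, 
  5317440, [])] .leaf))) 40 [(76843845513510912, 3428880, [0])] (.node (.node (.node (.node 
  .leaf 43 [(76562366192680961, 3428865, [0]), (76843845463703552, 266805, [0])] .leaf) 45 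
  [(76561283893428225, 271125, [0])] .leaf) 48 [(2818056942256133, 4534800, [0])] (.node .leaf 
  51 [(2818048303366146, 4534785, []), (2818056892448773, 78405, [0]), (5914281636397056, 
  4534785, [])] .leaf)) 53 [(2816966004113410, 144405, [0]), (5631720066121729, 4534290, [0])] 
  (.node (.node .leaf 58 [(2252972357582853, 4526640, [0]), (2252972357713922, 1262160, []), 
  (2534443039391748, 1262160, [])] .leaf) 60 [(2251890058461186, 4530960, []), 
  (2533360740139012, 4530960, []), (2814792767111173, 2311440, [0]), (5911017511059456, 4530960, 
  [])] (.node .leaf 63 [(2251890008522757, 4530945, []), (2251890008653826, 74565, []), 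
  (2533360690331652, 74565, []), (2814784128221186, 2311425, []), (2814792717303813, 213285, 
  [1]), (5629538190229505, 4530945, []), (5911017461252096, 4522275, [])] .leaf))))

theorem cert4666 : Cert2 [4, 6, 6, 6] c4666 g4666 where
  wok := ⟨by decide +kernel, by decide +kernel, by decide +kernel, by decide +kernel,
    by decide +kernel, by decide +kernel, by decide +kernel, by decide +kernel⟩
  ring := ⟨by decide +kernel, by decide +kernel, by decide +kernel, by decide +kernel⟩
  en := by decide +kernel
  cfv := by decide +kernel
  dfs := by decide +kernel
  coc := by decide +kernel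
  trp := by decide +kernel

def c5566 : Tree := (.node (.node .leaf 5387504 1 .leaf) 6238496 1 .leaf)

def g5566 : GTree := (.node (.node (.node (.node (.node .leaf 3 [(216739030602678282, 5517825, []), 
  (216739039192285189, 5517825, [])] .leaf) 6 [(216737948270657794, 5517600, [1])] .leaf) 10 
  [(216173954640511234, 5509680, [0])] (.node (.node .leaf 15 [(216454342990168068, 5513985, 
  [0]), (216735766427533322, 5505315, []), (216735775017140229, 5505315, [])] .leaf) 17 
  [(145525870101135364, 5255700, [0])] .leaf)) 20 [(145243308497699074, 5387280, [1])] (.node 
  (.node (.node .leaf 23 [(145243308481052677, 5387265, [1]), (145524779162861572, 5255460, 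
  [1])] .leaf) 29 [(145522605925990404, 5455890, [0])] .leaf) 30 [(145241126638059778, 5317440, 
  [1])] (.node .leaf 33 [(77127450760314889, 274965, [0])] .leaf))) 40 [(76843845479956736, 
  3428880, [0])] (.node (.node (.node (.node .leaf 43 [(76562366191894537, 266805, [0]), 
  (76843836873703432, 3428865, [0])] .leaf) 45 [(76842754558197768, 271125, [0]), 
  (77124186585169929, 3428370, [0])] .leaf) 46 [(76561283859874049, 1319760, [0])] (.node (.node 
  .leaf 51 [(2818048302579722, 78405, []), (2818056892186629, 78405, []), (5632802364588041, 
  4534785, [0])] .leaf) 53 [(5913190730891272, 4534290, [0])] .leaf)) 54 [(2816965970559234, 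
  1193040, [1]), (5631720032567553, 4534560, [1])] (.node (.node (.node .leaf 57 
  [(2534451628343300, 4522515, [0])] .leaf) 58 [(2252972340412674, 1262160, [0])] .leaf) 60 
  [(2251890024907010, 4530960, []), (5911017477505280, 4530960, [])] (.node .leaf 63 
  [(2251890008260613, 4530945, []), (2533360690069508, 74565, [0]), (2814784127434762, 213285, 
  []), (2814792717041669, 213285, []), (5629538189443081, 4522275, [0]), (5911008871251976, 
  4530945, [])] .leaf))))

theorem cert5566 : Cert2 [5, 5, 6, 6] c5566 g5566 where
  wok := ⟨by decide +kernel, by decide +kernel, by decide +kernel, by decide +kernel,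
    by decide +kernel, by decide +kernel, by decide +kernel, by decide +kernel⟩
  ring := ⟨by decide +kernel, by decide +kernel, by decide +kernel, by decide +kernel⟩
  en := by decide +kernel
  cfv := by decide +kernel
  dfs := by decide +kernel
  coc := by decide +kernel
  trp := by decide +kernel

def c5656 : Tree := (.node (.node .leaf 3432208 1 .leaf) 15999760 1 .leaf)

def g5656 : GTree := (.node (.node (.node (.node (.node .leaf 3 [(216736840202584069, 5517825, [0])] .leaf) 5 
  [(216736831596724234, 5517330, [0])] .leaf) 10 [(216735749280956674, 5509680, [0])] (.node 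
  (.node .leaf 12 [(216172820786446594, 5514000, [1])] .leaf) 15 [(216454291451609092, 5505315, 
  []), (216735749247664138, 5505315, [])] .leaf)) 17 [(145523671111434244, 5255700, [0])] (.node 
  (.node (.node .leaf 23 [(145242191790604293, 5255460, [0]), (145523671061626884, 5387265, 
  [0])] .leaf) 24 [(145241109507997954, 5456400, [0])] .leaf) 27 [(145241109491351557, 5456385, 
  [0]), (145522580173160452, 5247540, [0])] (.node (.node .leaf 30 [(145241109458190594, 
  5317440, [0])] .leaf) 33 [(77125251770613769, 274965, [0])] .leaf))) 39 [(77125251720806409, 
  2372865, [0])] (.node (.node (.node (.node .leaf 40 [(76842711642145024, 3428880, [1])] .leaf) 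
  45 [(76561232337829897, 271125, [1]), (76842703019638792, 3428370, [1])] .leaf) 46 
  [(76561232321315073, 3428640, [1]), (76842711592337664, 1319760, [1])] (.node (.node .leaf 51 
  [(2815857902485509, 78405, [0])] .leaf) 53 [(2815849296625674, 144405, [0]), 
  (5630603358633993, 4534290, [0])] .leaf)) 54 [(2815849280110850, 4534560, []), 
  (5912082613141760, 4534560, [])] (.node (.node (.node .leaf 57 [(2533317790531588, 4522515, 
  []), (5910991741190152, 4522515, [])] .leaf) 58 [(2814766980858114, 1262160, [0]), 
  (5629521042866433, 4526640, [0])] .leaf) 60 [(2251838486348034, 2311440, [1])] (.node .leaf 63 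
  [(2251838469701637, 4522275, []), (2533309151510532, 213285, []), (2533317740724228, 4530945, 
  []), (2814766947565578, 213285, []), (5629521009573897, 4522275, []), (5910991691382792, 
  4530945, [])] .leaf))))

theorem cert5656 : Cert2 [5, 6, 5, 6] c5656 g5656 where
  wok := ⟨by decide +kernel, by decide +kernel, by decide +kernel, by decide +kernel,
    by decide +kernel, by decide +kernel, by decide +kernel, by decide +kernel⟩
  ring := ⟨by decide +kernel, by decide +kernel, by decide +kernel, by decide +kernel⟩
  en := by decide +kernel
  cfv := by decide +kernel
  dfs := by decide +kernel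
  coc := by decide +kernel
  trp := by decide +kernel

def c5666 : Tree := (.node (.node (.node (.node .leaf 54882064 1 .leaf) 72761104 1 (.node .leaf 83239696 1 .leaf)) 
  104813072 2 (.node (.node .leaf 105247248 2 .leaf) 106033728 2 .leaf)) 106119711 2 (.node 
  (.node (.node .leaf 106181151 2 .leaf) 106889747 2 (.node .leaf 106893872 2 .leaf)) 106902032 
  2 (.node (.node .leaf 256189200 1 .leaf) 257045520 1 .leaf)))

def g5666 : GTree := (.node (.node (.node (.node (.node (.node .leaf 3 [(216739039225839621, 106181121, [2])] 
  .leaf) 5 [(216739030619979786, 106180626, [2])] .leaf) 10 [(216737948304212226, 106172976, 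
  [2])] (.node .leaf 15 [(216737948270919690, 106168611, [0])] .leaf)) 20 [(216173954657812738, 
  106050576, [3])] (.node (.node (.node .leaf 23 [(216455425322975236, 105918756, [0])] .leaf) 
  27 [(216454343023722500, 106119681, [2]), (216735775050694661, 105910836, [2])] .leaf) 29 
  [(216735766444834826, 105915156, [2])] (.node .leaf 30 [(216172872308752642, 106119456, []), 
  (216735766428320002, 106119456, [])] .leaf))) 33 [(145525870134689796, 100938261, [2])] (.node 
  (.node (.node (.node .leaf 39 [(145244390813859845, 100938021, [0]), (145525870084882436, 
  103036161, [0])] .leaf) 40 [(145243308531253506, 104092176, [2])] .leaf) 43 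
  [(145243308514607109, 104092161, [0]), (145524779196416004, 100930101, [0])] (.node .leaf 46 
  [(145243308481446146, 101983056, [0])] .leaf)) 57 [(145522605959544836, 105185811, [2])] 
  (.node (.node (.node .leaf 60 [(145241126655361282, 102974736, [3])] .leaf) 63 
  [(145241126638714885, 105185571, [0]), (145522597320523780, 100876581, [0]), 
  (145522605909737476, 105194241, [0])] .leaf) 65 [(77127450793869321, 5517846, [2])] (.node 
  .leaf 71 [(77127450744061961, 39073281, [0])] .leaf)))) 80 [(76843845513511168, 72757776, 
  [3])] (.node (.node (.node (.node (.node .leaf 85 [(76562366209196041, 5387286, [1]), 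
  (76843836891004936, 72757266, [1])] .leaf) 86 [(76562366192681217, 72757536, [1]), 
  (76843845463703808, 22164576, [1])] .leaf) 89 [(76842754591752200, 5456406, [2]), 
  (77124186618724361, 72745491, [2])] (.node .leaf 90 [(76561283893428481, 22233696, [2])] 
  .leaf)) 95 [(76561283860135945, 5456166, [0]), (76842754541944840, 39011841, [0]), 
  (77124186568917001, 72753921, [0])] (.node (.node (.node .leaf 99 [(2818056925741061, 1323606, 
  [0])] .leaf) 101 [(2818048319881226, 2372886, [0]), (5632802381889545, 90451986, [0])] .leaf) 
  102 [(2818048303366402, 90452256, []), (5914281636397312, 90452256, [])] (.node .leaf 105 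
  [(5913190764445704, 90440211, [0])] .leaf))) 106 [(2816966004113666, 20206176, [0]), 
  (5631720066121985, 90444336, [0])] (.node (.node (.node (.node .leaf 111 [(2816965970821130, 
  3428646, [0]), (5631720032829449, 90439971, [0]), (5913190714638344, 90448641, [0])] .leaf) 
  113 [(2534451661897732, 90190356, [0])] .leaf) 116 [(2252972357714178, 38090256, [1])] (.node 
  .leaf 119 [(2252972341067781, 90190116, [0]), (2534443022876676, 4534566, [0]), 
  (2534451612090372, 90321921, [0])] .leaf)) 120 [(2251890058461442, 90391056, []), 
  (5911017511059712, 90391056, [])] (.node (.node .leaf 123 [(2251890041815045, 90391041, [0]), 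
  (2533360723623940, 1262166, [0]), (2814792750596101, 4526646, [0])] .leaf) 125 
  [(2814784144736266, 4530966, [0]), (5629538206744585, 90186516, [0, 1]), (5911008888553480, 
  90390546, [1])] (.node .leaf 126 [(2251890008654082, 19088736, []), (2814784128221442, 
  54878496, []), (5629538190229761, 90390816, [1]), (5911017461252352, 90252096, [])] .leaf)))))

theorem cert5666 : Cert2 [5, 6, 6, 6] c5666 g5666 where
  wok := ⟨by decide +kernel, by decide +kernel, by decide +kernel, by decide +kernel,
    by decide +kernel, by decide +kernel, by decide +kernel, by decide +kernel⟩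
  ring := ⟨by decide +kernel, by decide +kernel, by decide +kernel, by decide +kernel⟩
  en := by decide +kernel
  cfv := by decide +kernel
  dfs := by decide +kernel
  coc := by decide +kernel
  trp := by decide +kernel

def c6666 : Tree := (.node (.node (.node (.node (.node (.node (.node .leaf 102036055 1 .leaf) 104092407 1 .leaf) 
  325018224 2 (.node .leaf 373248624 2 .leaf)) 373682800 1 (.node (.node (.node .leaf 374665840 
  1 .leaf) 385041008 3 .leaf) 525550192 2 (.node .leaf 603219728 4 .leaf))) 609630192 4 (.node 
  (.node (.node (.node .leaf 640964592 4 .leaf) 791959312 4 .leaf) 895775472 1 (.node .leaf 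
  910521072 1 .leaf)) 911504112 1 (.node (.node .leaf 921989408 1 .leaf) 921989633 1 (.node 
  .leaf 921989648 1 .leaf)))) 1190605088 4 (.node (.node (.node (.node (.node .leaf 1331114272 4 
  .leaf) 1450262336 4 .leaf) 1450308160 2 (.node .leaf 1450394352 2 .leaf)) 1450450736 4 (.node 
  (.node (.node .leaf 1450451952 1 .leaf) 1450455792 1 .leaf) 1450504480 5 (.node .leaf 
  1451176224 4 .leaf))) 1601250112 6 (.node (.node (.node (.node .leaf 1601253952 6 .leaf) 
  1601319952 4 .leaf) 1601389057 2 (.node .leaf 1601389072 2 .leaf)) 1601442352 6 (.node (.node 
  .leaf 1728180805 2 .leaf) 1728266997 2 (.node .leaf 1729295440 6 .leaf))))) 1729426000 7 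
  (.node (.node (.node (.node (.node (.node .leaf 1730093904 6 .leaf) 1730097744 6 .leaf) 
  1730475280 4 (.node .leaf 1731147024 4 .leaf)) 1731485456 4 (.node (.node (.node .leaf 
  1732203009 2 .leaf) 1732203024 2 .leaf) 1733377856 4 (.node .leaf 1733423680 2 .leaf))) 
  1733440752 4 (.node (.node (.node (.node .leaf 1733509872 2 .leaf) 1743856448 6 .leaf) 
  1743860288 6 (.node .leaf 1743926288 4 .leaf)) 1743995393 2 (.node (.node .leaf 1743995408 2 
  .leaf) 1744048688 7 (.node .leaf 1951809296 4 .leaf)))) 1969419280 4 (.node (.node (.node 
  (.node (.node .leaf 1969442576 4 .leaf) 1981084240 1 .leaf) 1982023152 4 (.node .leaf 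
  1983861024 4 .leaf)) 1995653408 4 (.node (.node .leaf 1995706928 1 .leaf) 2133017872 4 (.node 
  .leaf 2136093712 4 .leaf))) 4048696416 4 (.node (.node (.node (.node .leaf 4099289376 4 .leaf) 
  4116976176 1 .leaf) 4128457296 1 (.node .leaf 4128514896 1 .leaf)) 4128518736 1 (.node (.node 
  .leaf 4130623776 4 .leaf) 4130624001 1 (.node .leaf 4130624016 1 .leaf))))))

def g6666 : GTree := (.node (.node (.node (.node (.node (.node .leaf 5 [(216739039225840133, 1985228818, [0])] 
  .leaf) 10 [(216739030619980050, 1985221168, [1])] (.node .leaf 15 [(216739030603464714, 
  1985225473, []), (216739039192547349, 1985225473, [])] .leaf)) 20 [(216737948304212738, 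
  1985098768, [4])] (.node (.node .leaf 23 [(216737948304211978, 1984966948, [0])] .leaf) 30 
  [(216737948270919954, 1985028928, [4])] (.node .leaf 40 [(216173954657813250, 1983140368, 
  [1])] .leaf))) 43 [(216173954657812490, 1979978293, [1]), (216455425339490324, 1983140353, 
  [1])] (.node (.node (.node .leaf 45 [(216455425322975748, 1979982613, [0])] .leaf) 51 
  [(216172872358559754, 1984246273, []), (216735775067209749, 1984246273, [])] (.node .leaf 53 
  [(216454343023723012, 1984245778, [0]), (216735775050695173, 1979855893, [0])] .leaf)) 58 
  [(216735766444835090, 1980973648, [1])] (.node (.node .leaf 60 [(216172872308753154, 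
  1984242448, []), (216735766428320514, 1984242448, [])] .leaf) 63 [(216172872308752394, 
  1984233763, []), (216454342990430228, 1984242433, [4]), (216735766428319754, 1979786053, []), 
  (216735775017402389, 1982022913, [])] .leaf))) 65 [(145525870134690308, 1884566038, [0])] 
  (.node (.node (.node (.node .leaf 75 [(145244390830374933, 1934909953, [0])] .leaf) 77 
  [(145244390813860357, 1884562198, [0]), (145525870084882948, 1934909458, [0])] (.node .leaf 80 
  [(145243308531254018, 1951805968, [4])] .leaf)) 83 [(145243308531253258, 1884369478, [0]), 
  (145524779212931092, 1951805953, [0])] (.node (.node .leaf 85 [(145243308514607621, 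
  1951805458, [4]), (145524779196416516, 1884435478, [4])] .leaf) 92 [(145243308481446658, 
  1918060048, [4])] .leaf)) 95 [(145243308481314837, 1951802113, [0]), (145243308481445898, 
  1884504358, [0]), (145524779163123732, 1918060033, [0])] (.node (.node (.node .leaf 113 
  [(145522605959545348, 1969238548, [0])] .leaf) 120 [(145241126655361794, 1933926928, [4])] 
  (.node .leaf 123 [(145241126655229973, 1969439233, [0]), (145241126655361034, 1883574838, 
  [0]), (145522597337038868, 1933926913, [0])] .leaf)) 125 [(145241126638715397, 1969234708, [0, 
  4]), (145522597320524292, 1883579158, [4]), (145522605909737988, 1969438738, [0])] (.node 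
  (.node .leaf 130 [(77127450793869585, 374616688, [1])] .leaf) 135 [(77127450777354249, 
  643053313, [0])] .leaf)))) 142 [(77127450744062225, 911503648, [1])] (.node (.node (.node 
  (.node (.node .leaf 160 [(76843845513511680, 1450455568, [1])] .leaf) 163 [(76843845513510920, 
  101986903, [1])] (.node .leaf 170 [(76562366209196305, 372527728, [2]), (76843836891005200, 
  1450447408, [2])] .leaf)) 172 [(76562366192681729, 1450451728, [1]), (76843845463704320, 
  640964368, [1])] (.node (.node .leaf 175 [(76562366192680969, 101983063, [5]), 
  (76843836874489864, 1450451713, [5]), (76843845463703560, 104091943, [1])] .leaf) 178 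
  [(76842754591752464, 373633648, [1]), (77124186618724625, 1450259008, [1])] (.node .leaf 180 
  [(76561283893428993, 642070288, [4])] .leaf))) 183 [(76561283893428233, 105197863, [0]), 
  (76842754575237128, 642070273, [0, 4]), (77124186602209289, 1450324993, [0])] (.node (.node 
  (.node .leaf 190 [(76561283860136209, 373629808, [7]), (76842754541945104, 910520608, [1, 7]), 
  (77124186568917265, 1450393888, [1])] .leaf) 195 [(2818056942256149, 1733571073, []), 
  (5914281686204424, 1733571073, [])] (.node .leaf 197 [(2818056925741573, 39073303, [0])] 
  .leaf)) 202 [(2818048319881490, 324297328, [7]), (5632802381889809, 1733562928, [3])] (.node 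
  (.node .leaf 204 [(2818048303366914, 1733567248, []), (5914281636397824, 1733567248, [])] 
  .leaf) 207 [(2818048303366154, 22291303, []), (2818056892448789, 592733953, []), 
  (5632802365374473, 1733567233, [0]), (5914281636397064, 1733558563, [])] .leaf))) 210 
  [(5913190764445968, 1733374528, [0])] (.node (.node (.node (.node .leaf 212 
  [(2816966004114178, 609629968, [4]), (5631720066122497, 1733440528, [0])] .leaf) 215 
  [(2816966004113418, 72757543, [4]), (5631720066121737, 1733308708, [4]), (5913190747930632, 
  1733440513, [4])] (.node .leaf 222 [(2816965970821394, 341189488, [2]), (5631720032829713, 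
  1733370688, [2, 4]), (5913190714638608, 1733509408, [0])] .leaf)) 225 [(2534451661898244, 
  1728328213, [0])] (.node (.node .leaf 232 [(2252972357714690, 895775248, [7])] .leaf) 235 
  [(2252972357582869, 1731482113, [1]), (2252972357713930, 90444343, [3]), (2534443039391764, 
  895775233, [1, 7])] .leaf)) 237 [(2252972341068293, 1728324373, [0]), (2534443022877188, 
  90448663, [4]), (2534451612090884, 1731481618, [0])] (.node (.node (.node .leaf 240 
  [(2251890058461954, 1732588048, []), (5911017511060224, 1732588048, [])] .leaf) 243 
  [(2251890058461194, 21312103, []), (2533360740139028, 1732588033, [0]), (2814792767111189, 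
  1164390913, []), (5911017511059464, 1728131653, [])] (.node .leaf 245 [(2251890041815557, 
  1732587538, [0]), (2533360723624452, 38090263, [0, 4]), (2814792750596613, 90321943, [0])] 
  .leaf)) 250 [(2814784144736530, 358826608, [7]), (5629538206744849, 1729315408, [1, 3]), 
  (5911008888553744, 1732579888, [1])] (.node (.node .leaf 252 [(2251890008654594, 591750928, 
  []), (2814784128221954, 1164387088, []), (5629538190230273, 1732584208, [4]), 
  (5911017461252864, 1730364688, [])] .leaf) 255 [(2251890008522773, 1732584193, []), 
  (2251890008653834, 54878503, []), (2533360690331668, 591750913, [0, 2]), (2814784128221194, 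
  90252103, []), (2814792717303829, 627263233, []), (5629538190229513, 1728127813, [0]), 
  (5911008872038408, 1732584193, []), (5911017461252104, 1728266533, [])] .leaf)))))

theorem cert6666 : Cert2 [6, 6, 6, 6] c6666 g6666 where
  wok := ⟨by decide +kernel, by decide +kernel, by decide +kernel, by decide +kernel,
    by decide +kernel, by decide +kernel, by decide +kernel, by decide +kernel⟩
  ring := ⟨by decide +kernel, by decide +kernel, by decide +kernel, by decide +kernel⟩
  en := by decide +kernel
  cfv := by decide +kernel
  dfs := by decide +kernel
  coc := by decide +kernel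
  trp := by decide +kernel

end Pool.H64.NC.Dat
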